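import Pool.Agent.H719R3.KcmLayer

/-!
# A stationary measure of a monotone kinetically constrained model which is not a mixture of
# the conditioned measures `π_β`
-/

open MeasureTheory Filter Topology ProbabilityTheory
open Pool.Agent.H719R3.Perc Pool.Agent.H719R3.Kcm

set_option linter.unusedSectionVars false

namespace Pool.Agent.Results.MP_6f5b46_pr.KcmPhases

/-- finite volume measure -/
noncomputable def muN (q : ℝ) (N : ℕ) : Measure (Conf 3) :=
  ∑ p ∈ PP (BB N), ENNReal.ofReal (((1 - q) / q) ^ p.1.card / ZZ N ((1 - q) / q)) •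
    Measure.dirac (cf (BB N) p)

lemma lam_pos {q : ℝ} (hq0 : 0 < q) (hq1 : q < 1) : 0 < (1 - q) / q :=
  div_pos (by linarith) hq0

lemma muN_prob {q : ℝ} (hq0 : 0 < q) (hq1 : q < 1) (N : ℕ) : IsProbabilityMeasure (muN q N) := by
  constructor
  have hl := lam_pos hq0 hq1
  have hZ := ZZ_pos N hl
  unfold muN
  rw [Measure.finsetSum_apply]
  simp only [Measure.smul_apply, measure_univ, smul_eq_mul, mul_one]
  rw [← ENNReal.ofReal_sum_of_nonneg fun p _ => by positivity, ← Finset.sum_div]
  have : ∑ p ∈ PP (BB N), ((1 - q) / q) ^ p.1.card = ZZ N ((1 - q) / q) := rfl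
  rw [this, div_self hZ.ne', ENNReal.ofReal_one]

lemma muN_int {q : ℝ} (hq0 : 0 < q) (hq1 : q < 1) (N : ℕ) {f : Conf 3 → ℝ} (hf : IsLocal f) :
    ∫ η, f η ∂(muN q N) =
      (∑ p ∈ PP (BB N), ((1 - q) / q) ^ p.1.card * f (cf (BB N) p)) / ZZ N ((1 - q) / q) := by
  have hl := lam_pos hq0 hq1
  have hZ := ZZ_pos N hl
  unfold muN
  rw [integral_finsetSum_measure, Finset.sum_div]
  · refine Finset.sum_congr rfl fun p _ => ?_
    rw [integral_smul_measure, integral_dirac, ENNReal.toReal_ofReal (by positivity), smul_eq_mul]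
    ring
  · intro p _
    exact (hf.integrable (Measure.dirac _)).smul_measure ENNReal.ofReal_ne_top

/-- the properties of the limits used below -/
structure Good (q : ℝ) (μ : Measure (Conf 3)) : Prop where
  filled : ∀ x : Site 3, (x 0 ≤ -2 ∨ 3 ≤ x 0) → ∫ η, gD {x} η ∂μ = 1
  empty : ∀ x : Site 3, (x 0 = -1 ∨ x 0 = 2) → ∫ η, gD {x} η ∂μ = 0
  excl : ∀ x y : Site 3, x 0 = 0 → y 0 = 1 → Nb x y → ∫ η, gD {x, y} η ∂μ = 0
  db : ∀ x : Site 3, ∀ f : Conf 3 → ℝ, IsLocal f → ∫ η, term layerKCM q x f η ∂μ = 0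

lemma avg_const {q : ℝ} (hq0 : 0 < q) (hq1 : q < 1) (N : ℕ) {f : Conf 3 → ℝ} (hf : IsLocal f)
    {c : ℝ} (h : ∀ p ∈ PP (BB N), f (cf (BB N) p) = c) : ∫ η, f η ∂(muN q N) = c := by
  rw [muN_int hq0 hq1 N hf]
  have hZ := ZZ_pos N (lam_pos hq0 hq1)
  rw [Finset.sum_congr rfl fun p hp => by rw [h p hp], ← Finset.sum_mul]
  have : ∑ p ∈ PP (BB N), ((1 - q) / q) ^ p.1.card = ZZ N ((1 - q) / q) := rfl
  rw [this]
  field_simp

lemma muN_excl {q : ℝ} (hq0 : 0 < q) (hq1 : q < 1) (N : ℕ) {x y : Site 3} (hx : x 0 = 0)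
    (hy : y 0 = 1) (hxy : Nb x y) : ∫ η, gD {x, y} η ∂(muN q N) = 0 := by
  refine avg_const hq0 hq1 N (gD_local _) fun p hp => ?_
  unfold gD
  rw [if_neg]
  intro h
  have h1 := (cf_zero hx).1 (h x (by simp))
  have h2 := (cf_one hy).1 (h y (by simp))
  rw [mem_PP] at hp
  obtain ⟨_, _, hX2, hX3⟩ := hp
  have had : ad (y 1, y 2) (x 1, x 2) := ⟨hxy.2.1, hxy.2.2⟩
  rcases h1 with h1 | h1
  · exact hX3 _ h2 _ h1 had
  · exact hX2 _ h2 _ h1.1 h1.2 had

lemma hh_ge (N : ℕ) : (N : ℤ) ≤ hh N := by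
  induction N with
  | zero => simp [hh]
  | succ n ih =>
    rw [hh]
    push_cast
    linarith [hh_nonneg n]

lemma eventually_BB (c : Cell) : ∀ᶠ N : ℕ in atTop, c ∈ BB N := by
  filter_upwards [eventually_ge_atTop (max c.1.natAbs c.2.natAbs)] with N hN
  have h1 := le_trans (le_max_left _ _) hN
  have h2 := le_trans (le_max_right _ _) hN
  rw [mem_BB]
  have h3 := hh_ge N
  constructor
  · rw [Int.abs_eq_natAbs]; omega
  · rw [Int.abs_eq_natAbs]; omega

lemma origin_mem_BB (N : ℕ) : ((0, 0) : Cell) ∈ BB N := by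
  rw [mem_BB]
  simp [hh_nonneg]

lemma muN_A {q : ℝ} (hq0 : 0 < q) (hq : q ≤ 1 / 65537) (N : ℕ) :
    3 / 4 ≤ ∫ η, gD {![0, 0, 0]} η ∂(muN q N) := by
  have hq1 : q < 1 := by linarith
  have hlam : 65536 ≤ (1 - q) / q := by
    rw [le_div_iff₀ hq0]; linarith
  have hZ := ZZ_pos N (lam_pos hq0 hq1)
  rw [muN_int hq0 hq1 N (gD_local _), le_div_iff₀ hZ]
  refine (typeA_ge hlam).trans (le_of_eq (Finset.sum_congr rfl fun p _ => ?_))
  congr 1
  unfold gD
  have h := cf_zero (B := BB N) (p := p) (x := ![0, 0, 0]) (by simp)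
  have h0 := origin_mem_BB N
  simp only [Finset.mem_singleton, forall_eq]
  by_cases h1 : cf (BB N) p ![0, 0, 0] = true
  · have h2 := h.1 h1
    simp only [Matrix.cons_val_one, Matrix.cons_val_zero, Matrix.cons_val] at h2
    rw [if_pos h1, if_pos (by tauto)]
  · have h2 : ¬ _ := fun h' => h1 (h.2 h')
    simp only [Matrix.cons_val_one, Matrix.cons_val_zero, Matrix.cons_val] at h2
    rw [if_neg h1, if_neg (by tauto)]

lemma muN_B {q : ℝ} (hq0 : 0 < q) (hq : q ≤ 1 / 65537) (N : ℕ) :
    ∫ η, gD {![1, 0, 0]} η ∂(muN q N) ≤ 1 / 4 := by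
  have hq1 : q < 1 := by linarith
  have hlam : 65536 ≤ (1 - q) / q := by
    rw [le_div_iff₀ hq0]; linarith
  have hZ := ZZ_pos N (lam_pos hq0 hq1)
  rw [muN_int hq0 hq1 N (gD_local _), div_le_iff₀ hZ]
  refine le_trans (le_of_eq (Finset.sum_congr rfl fun p _ => ?_)) (typeB_le hlam)
  congr 1
  unfold gD
  have h := cf_one (B := BB N) (p := p) (x := ![1, 0, 0]) (by simp)
  simp only [Finset.mem_singleton, forall_eq]
  simp only [Matrix.cons_val_one, Matrix.cons_val_zero, Matrix.cons_val] at h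
  simp only [h]

/-- infinite volume limit -/
lemma exists_limit {q : ℝ} (hq0 : 0 < q) (hq : q ≤ 1 / 65537) :
    ∃ μ : Measure (Conf 3), IsProbabilityMeasure μ ∧ Good q μ ∧
      3 / 4 ≤ ∫ η, gD {![0, 0, 0]} η ∂μ ∧ ∫ η, gD {![1, 0, 0]} η ∂μ ≤ 1 / 4 := by
  have hq1 : q < 1 := by linarith
  set u : ℕ → ProbabilityMeasure (Conf 3) := fun N => ⟨muN q N, muN_prob hq0 hq1 N⟩ with hu
  obtain ⟨μ, -, hμ⟩ := isCompact_univ.ultrafilter_le_nhds
    (Ultrafilter.map u (hyperfilter ℕ)) (by simp)
  have ht : Tendsto u (hyperfilter ℕ : Filter ℕ) (𝓝 μ) := hμ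
  rw [ProbabilityMeasure.tendsto_iff_forall_integral_tendsto] at ht
  have hlim : ∀ f : Conf 3 → ℝ, IsLocal f →
      Tendsto (fun N => ∫ η, f η ∂(muN q N)) (hyperfilter ℕ : Filter ℕ)
        (𝓝 (∫ η, f η ∂(μ : Measure (Conf 3)))) := by
    intro f hf
    obtain ⟨C, _, hC⟩ := hf.bounded
    exact ht (BoundedContinuousFunction.ofNormedAddCommGroup f hf.continuous C
      (fun η => by rw [Real.norm_eq_abs]; exact hC η))
  have hle : (hyperfilter ℕ : Filter ℕ) ≤ atTop := by
    rw [← Nat.cofinite_eq_atTop]; exact hyperfilter_le_cofinite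
  refine ⟨μ, inferInstance, ⟨?_, ?_, ?_, ?_⟩, ?_, ?_⟩
  · intro x hx
    refine tendsto_nhds_unique (hlim _ (gD_local _)) ?_
    refine tendsto_const_nhds.congr fun N => ?_
    refine (avg_const hq0 hq1 N (gD_local _) fun p _ => ?_).symm
    unfold gD
    rw [if_pos]
    intro y hy
    rw [Finset.mem_singleton] at hy
    rw [hy]
    exact cf_filled hx
  · intro x hx
    refine tendsto_nhds_unique (hlim _ (gD_local _)) ?_
    refine tendsto_const_nhds.congr fun N => ?_
    refine (avg_const hq0 hq1 N (gD_local _) fun p _ => ?_).symm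
    unfold gD
    rw [if_neg]
    intro h
    have := h x (Finset.mem_singleton_self x)
    rw [cf_empty hx] at this
    exact Bool.noConfusion this
  · intro x y hx hy hxy
    refine tendsto_nhds_unique (hlim _ (gD_local _)) ?_
    refine tendsto_const_nhds.congr fun N => ?_
    exact (muN_excl hq0 hq1 N hx hy hxy).symm
  · intro x f hf
    refine tendsto_nhds_unique (hlim _ (term_local layerKCM q x hf)) ?_
    refine tendsto_const_nhds.congr' ?_
    refine Filter.Eventually.filter_mono hle ?_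
    filter_upwards [eventually_BB (x 1, x 2)] with N hN
    rw [muN_int hq0 hq1 N (term_local layerKCM q x hf), db_all hq0 x hN f, zero_div]
  · exact ge_of_tendsto' (hlim _ (gD_local _)) fun N => muN_A hq0 hq N
  · exact le_of_tendsto' (hlim _ (gD_local _)) fun N => muN_B hq0 hq N

/-! ### reflection -/

/-- reflection exchanging the layers `0` and `1` -/
def rf (x : Site 3) : Site 3 := ![1 - x 0, x 1, x 2]

lemma rf_rf (x : Site 3) : rf (rf x) = x := by
  refine site_ext ?_ ?_ ?_ <;> simp [rf]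

/-- the reflected configuration -/
def RR (η : Conf 3) : Conf 3 := fun y => η (rf y)

lemma Nb_rf {x y : Site 3} : Nb (rf x) (rf y) ↔ Nb x y := by
  unfold Nb rf
  simp only [Matrix.cons_val_one, Matrix.cons_val_zero, Matrix.cons_val]
  have : |1 - y 0 - (1 - x 0)| = |y 0 - x 0| := by
    rw [← abs_neg]; congr 1; ring
  rw [this]

lemma rate_RR (x : Site 3) (η : Conf 3) : layerKCM.rate x (RR η) = layerKCM.rate (rf x) η := by
  classical
  rw [layer_rate, layer_rate]
  have : (∀ y, Nb x y → RR η y = false) ↔ ∀ y, Nb (rf x) y → η y = false := by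
    constructor
    · intro h y hy
      have := h (rf y) (by rw [← Nb_rf, rf_rf]; exact hy)
      unfold RR at this
      rwa [rf_rf] at this
    · intro h y hy
      exact h (rf y) (Nb_rf.2 hy)
  simp only [this]

lemma flip_RR (η : Conf 3) (x : Site 3) : flip (RR η) x = RR (flip η (rf x)) := by
  funext y
  rw [flip_apply]
  unfold RR
  rw [flip_apply]
  by_cases h : y = x
  · subst h; simp
  · have : rf y ≠ rf x := by
      intro h'
      apply h
      rw [← rf_rf y, h', rf_rf]
    rw [if_neg h, if_neg this]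

lemma term_RR (q : ℝ) (x : Site 3) (f : Conf 3 → ℝ) (η : Conf 3) :
    term layerKCM q x f (RR η) = term layerKCM q (rf x) (fun ζ => f (RR ζ)) η := by
  unfold term
  rw [rate_RR, flip_RR]
  rfl

lemma local_RR {f : Conf 3 → ℝ} (hf : IsLocal f) : IsLocal (fun η => f (RR η)) := by
  classical
  obtain ⟨D, hD⟩ := hf
  refine ⟨D.image rf, fun η ζ h => hD _ _ fun y hy => ?_⟩
  exact h (rf y) (Finset.mem_image_of_mem _ hy)

lemma measurable_RR : Measurable RR := measurable_pi_lambda _ fun y => measurable_pi_apply _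

lemma int_map {μ : Measure (Conf 3)} {f : Conf 3 → ℝ} (hf : IsLocal f) :
    ∫ η, f η ∂(μ.map RR) = ∫ η, f (RR η) ∂μ :=
  integral_map measurable_RR.aemeasurable hf.measurable.aestronglyMeasurable

lemma gD_RR1 (x : Site 3) (η : Conf 3) : gD {x} (RR η) = gD {rf x} η := by
  unfold gD RR
  simp

lemma gD_RR2 (x y : Site 3) (η : Conf 3) : gD {x, y} (RR η) = gD {rf y, rf x} η := by
  unfold gD RR
  simp [and_comm]

lemma good_map {q : ℝ} {μ : Measure (Conf 3)} (h : Good q μ) : Good q (μ.map RR) := by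
  refine ⟨?_, ?_, ?_, ?_⟩
  · intro x hx
    rw [int_map (gD_local _)]
    simp only [gD_RR1]
    refine h.filled _ ?_
    simp only [rf, Matrix.cons_val_zero]
    omega
  · intro x hx
    rw [int_map (gD_local _)]
    simp only [gD_RR1]
    refine h.empty _ ?_
    simp only [rf, Matrix.cons_val_zero]
    omega
  · intro x y hx hy hxy
    rw [int_map (gD_local _)]
    simp only [gD_RR2]
    refine h.excl _ _ ?_ ?_ ?_
    · simp [rf, hy]
    · simp [rf, hx]
    · rw [Nb_rf]
      obtain ⟨h1, h2, h3⟩ := hxy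
      refine ⟨?_, ?_, ?_⟩
      · rw [abs_sub_comm]; exact h1
      · rw [abs_sub_comm]; exact h2
      · rw [abs_sub_comm]; exact h3
  · intro x f hf
    rw [int_map (term_local layerKCM q x hf)]
    simp only [term_RR]
    exact h.db _ _ (local_RR hf)

/-! ### consequences of a representation -/

/-- the closed configuration filled exactly in the layers `≤ -2` and `≥ 3` -/
def betaStar : Conf 3 := fun x => decide (x 0 ≤ -2 ∨ 3 ≤ x 0)

lemma determined {q : Set.Ioo (0 : ℝ) 1} {μ : Measure (Conf 3)}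
    (hG : Good q μ) (hmix : IsMixture layerKCM q μ) {f : Conf 3 → ℝ} (hf : IsLocal f) :
    ∫ η, f η ∂μ = piBeta layerKCM q betaStar f := by
  obtain ⟨μs, hp, hadm, hrep⟩ := hmix
  have h1 : ∀ᵐ β ∂μs, ∀ x : Site 3, (x 0 ≤ -2 ∨ 3 ≤ x 0) → β x = true := by
    rw [ae_all_iff]
    intro x
    by_cases hx : x 0 ≤ -2 ∨ 3 ≤ x 0
    · have hr := hrep (gD {x}) (gD_local _)
      have := mix_one layer_mono hadm hr.1 (by rw [← hr.2]; exact hG.filled x hx)
      filter_upwards [this] with β hβ _
      exact hβ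
    · exact Filter.Eventually.of_forall fun β h => absurd h hx
  have h2 : ∀ᵐ β ∂μs, ∀ x : Site 3, (x 0 = -1 ∨ x 0 = 2) → β x = false := by
    rw [ae_all_iff]
    intro x
    by_cases hx : x 0 = -1 ∨ x 0 = 2
    · have hr := hrep (gD {x}) (gD_local _)
      have := mix_zero hadm hr.1 (by rw [← hr.2]; exact hG.empty x hx)
      filter_upwards [this] with β hβ _
      by_contra hc
      rw [Bool.not_eq_false] at hc
      refine hβ fun y hy => ?_
      rw [Finset.mem_singleton] at hy
      rw [hy]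
      exact hc
    · exact Filter.Eventually.of_forall fun β h => absurd h hx
  have h3 : ∀ᵐ β ∂μs, ∀ x y : Site 3, x 0 = 0 → y 0 = 1 → Nb x y →
      ¬ (β x = true ∧ β y = true) := by
    rw [ae_all_iff]
    intro x
    rw [ae_all_iff]
    intro y
    by_cases hx : x 0 = 0 ∧ y 0 = 1 ∧ Nb x y
    · have hr := hrep (gD {x, y}) (gD_local _)
      have := mix_zero hadm hr.1 (by rw [← hr.2]; exact hG.excl x y hx.1 hx.2.1 hx.2.2)
      filter_upwards [this] with β hβ _ _ _ hc
      refine hβ fun z hz => ?_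
      rw [Finset.mem_insert, Finset.mem_singleton] at hz
      rcases hz with rfl | rfl
      · exact hc.1
      · exact hc.2
    · exact Filter.Eventually.of_forall fun β a b c => absurd ⟨a, b, c⟩ hx
  have h4 : ∀ᵐ β ∂μs, β = betaStar := by
    filter_upwards [h1, h2, h3, hadm] with β a1 a2 a3 ha
    have hblock : ∀ x : Site 3, β x = true → ∃ y, Nb x y ∧ β y = true := by
      intro x hx
      have hb := closed_blocked ha.1 hx
      by_contra hcon
      push Not at hcon
      apply hb
      have : layerKCM.rate x β ≠ 0 := layer_rate_ne.2 fun y hy => by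
        have := hcon y hy
        rwa [ne_eq, Bool.not_eq_true] at this
      exact lt_of_le_of_ne (layerKCM.rate_nonneg x β) this.symm
    funext x
    unfold betaStar
    by_cases hx : x 0 ≤ -2 ∨ 3 ≤ x 0
    · rw [a1 x hx]; simp [hx]
    · have hd : decide (x 0 ≤ -2 ∨ 3 ≤ x 0) = false := by simp only [decide_eq_false_iff_not]; exact hx
      rw [hd]
      by_cases hx' : x 0 = -1 ∨ x 0 = 2
      · exact a2 x hx'
      · by_contra hc
        rw [Bool.not_eq_false] at hc
        obtain ⟨y, hxy, hy⟩ := hblock x hc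
        have hy0 : y 0 = x 0 + 1 ∨ y 0 = x 0 - 1 := by
          rcases (abs_eq (by norm_num)).1 hxy.1 with h | h
          · left; linarith
          · right; linarith
        have hx01 : x 0 = 0 ∨ x 0 = 1 := by omega
        rcases hx01 with h0 | h0
        · rcases hy0 with h5 | h5
          · exact a3 x y h0 (by omega) hxy ⟨hc, hy⟩
          · rw [a2 y (by omega)] at hy
            exact Bool.noConfusion hy
        · rcases hy0 with h5 | h5
          · rw [a2 y (by omega)] at hy
            exact Bool.noConfusion hy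
          · refine a3 y x (by omega) h0 ?_ ⟨hy, hc⟩
            obtain ⟨g1, g2, g3⟩ := hxy
            refine ⟨?_, ?_, ?_⟩
            · rw [abs_sub_comm]; exact g1
            · rw [abs_sub_comm]; exact g2
            · rw [abs_sub_comm]; exact g3
  rw [(hrep f hf).2]
  have h5 : (fun β => piBeta layerKCM q β f) =ᵐ[μs] fun _ => piBeta layerKCM q betaStar f := by
    filter_upwards [h4] with β hβ
    rw [hβ]
  rw [integral_congr_ae h5]
  simp

/-- The model `layerKCM` on `ℤ³` is monotone and translation invariant, and for every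
`q ≤ 1 / 65537` it has a stationary measure which is not a mixture of the conditioned measures
`π_β` over admissible `β`. -/
theorem result :
    MonotoneKCM layerKCM ∧ TranslationInvariant layerKCM ∧
      ∀ q : Set.Ioo (0 : ℝ) 1, (q : ℝ) ≤ 1 / 65537 →
        ∃ μ : Measure (Conf 3), IsProbabilityMeasure μ ∧ Stationary layerKCM q μ ∧
          (∀ (Λ : Finset (Site 3)) (t : ℝ) (f : Conf 3 → ℝ), IsLocal f →
            ∫ η, semi layerKCM q Λ t f η ∂μ = ∫ η, f η ∂μ) ∧
          ¬ IsMixture layerKCM q μ := by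
  refine ⟨layer_mono, layer_trans, fun q hq => ?_⟩
  obtain ⟨μ, hp, hG, hA, hB⟩ := exists_limit q.2.1 hq
  have hp' : IsProbabilityMeasure (μ.map RR) :=
    Measure.isProbabilityMeasure_map measurable_RR.aemeasurable
  have hG' := good_map hG
  by_cases hm : IsMixture layerKCM q μ
  · refine ⟨μ.map RR, hp', stationary_of_db _ _ _ hG'.db, ?_, fun hm' => ?_⟩
    · intro Λ t f hf
      exact semi_invariant _ _ _ hG'.db Λ t hf
    · have e1 := determined hG hm (gD_local ({![0, 0, 0]} : Finset (Site 3)))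
      have e2 := determined hG' hm' (gD_local ({![0, 0, 0]} : Finset (Site 3)))
      rw [int_map (gD_local _)] at e2
      simp only [gD_RR1] at e2
      have e3 : rf ![0, 0, 0] = ![1, 0, 0] := by
        refine site_ext ?_ ?_ ?_ <;> simp [rf]
      rw [e3] at e2
      linarith
  · exact ⟨μ, hp, stationary_of_db _ _ _ hG.db,
      fun Λ t f hf => semi_invariant _ _ _ hG.db Λ t hf, hm⟩

end Pool.Agent.Results.MP_6f5b46_pr.KcmPhases
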